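import Mathlib

/-!
# Enumeration of labeled self-converse digraphs (MP_b5e4d4, Q1)
-/

set_option autoImplicit false

open Finset

namespace Pool.Agent.Results.MP_b5e4d4_co.SelfConverse

/-- The number `s(p)` of labeled self-converse digraphs with `p` points: a digraph is its set of
arcs, a finite set of ordered pairs of distinct points. -/
noncomputable def s (p : ℕ) : ℕ :=
  Nat.card {A : Finset (Fin p × Fin p) // (∀ u, (u, u) ∉ A) ∧
    ∃ σ : Equiv.Perm (Fin p), ∀ u v, (u, v) ∈ A ↔ (σ v, σ u) ∈ A}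

/-- The ordered pairs of distinct points. -/
abbrev E (p : ℕ) : Type := {e : Fin p × Fin p // e.1 ≠ e.2}

/-- The group `S_p × {1, -1}`. -/
abbrev Γ (p : ℕ) : Type := Equiv.Perm (Fin p) × ℤˣ

/-- The action on ordered pairs: `(σ, 1)` maps `(u, v)` to `(σ u, σ v)` and `(σ, -1)` maps `(u, v)`
to `(σ v, σ u)`. -/
def act {p : ℕ} (g : Γ p) (e : E p) : E p :=
  if g.2 = 1 then ⟨(g.1 e.1.1, g.1 e.1.2), fun h => e.2 (g.1.injective h)⟩
  else ⟨(g.1 e.1.2, g.1 e.1.1), fun h => e.2 (g.1.injective h).symm⟩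

instance (p : ℕ) : MulAction (Γ p) (E p) where
  smul := act
  one_smul := by
    rintro ⟨e, he⟩
    rfl
  mul_smul := by
    rintro ⟨σ, a⟩ ⟨τ, b⟩ ⟨⟨u, v⟩, he⟩
    change act ((σ, a) * (τ, b)) _ = act (σ, a) (act (τ, b) _)
    rcases Int.units_eq_one_or a with rfl | rfl <;> rcases Int.units_eq_one_or b with rfl | rfl <;>
      simp [act]

lemma smul_neg {p : ℕ} (σ : Equiv.Perm (Fin p)) (u v : Fin p) (h : u ≠ v) :
    ((σ, -1) : Γ p) • (⟨(u, v), h⟩ : E p) = ⟨(σ v, σ u), fun h' => h (σ.injective h').symm⟩ := rfl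

/-- The stabiliser of a digraph, given by its indicator function on the ordered pairs. -/
def St {p : ℕ} (c : E p → Bool) : Subgroup (Γ p) where
  carrier := {g | ∀ e, c (g • e) = c e}
  mul_mem' := by
    intro a b ha hb e
    rw [mul_smul, ha, hb]
  one_mem' := by intro e; rw [one_smul]
  inv_mem' := by
    intro a ha e
    have := ha (a⁻¹ • e)
    rw [smul_inv_smul] at this
    exact this.symm

lemma mem_St {p : ℕ} (c : E p → Bool) (g : Γ p) : g ∈ St c ↔ ∀ e, c (g • e) = c e := Iff.rfl

lemma s_eq (p : ℕ) : s p = Nat.card {c : E p → Bool // ∃ σ : Equiv.Perm (Fin p), (σ, -1) ∈ St c} := by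
  classical
  unfold s
  refine Nat.card_congr
    { toFun := fun A => ⟨fun e => decide (e.1 ∈ A.1), ?_⟩
      invFun := fun c => ⟨univ.filter (fun x => ∃ h : x.1 ≠ x.2, c.1 ⟨x, h⟩ = true), ?_, ?_⟩
      left_inv := ?_
      right_inv := ?_ }
  · obtain ⟨A, hA, σ, hσ⟩ := A
    refine ⟨σ, ?_⟩
    rintro ⟨⟨u, v⟩, h⟩
    rw [smul_neg]
    simp only [decide_eq_decide]
    exact (hσ u v).symm
  · intro u hu
    simp at hu
  · obtain ⟨c, σ, hσ⟩ := c
    refine ⟨σ, ?_⟩
    intro u v
    simp only [mem_filter, mem_univ, true_and]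
    constructor
    · rintro ⟨h, hc⟩
      have h' : σ v ≠ σ u := fun h' => h (σ.injective h').symm
      refine ⟨h', ?_⟩
      have := hσ ⟨(u, v), h⟩
      rw [smul_neg] at this
      rw [this]
      exact hc
    · rintro ⟨h, hc⟩
      have h' : u ≠ v := fun h' => h (by rw [h'])
      refine ⟨h', ?_⟩
      have := hσ ⟨(u, v), h'⟩
      rw [smul_neg] at this
      rw [← this]
      exact hc
  · rintro ⟨A, hA, hA'⟩
    apply Subtype.ext
    ext x
    simp only [mem_filter, mem_univ, true_and, decide_eq_true_eq]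
    constructor
    · rintro ⟨h, hc⟩
      exact hc
    · intro h
      refine ⟨?_, h⟩
      intro hx
      apply hA x.1
      have : (x.1, x.1) = x := Prod.ext rfl hx
      rw [this]
      exact h
  · rintro ⟨c, hc⟩
    apply Subtype.ext
    funext e
    simp only [mem_filter, mem_univ, true_and]
    rcases h : c e with _ | _
    · rw [decide_eq_false_iff_not]
      rintro ⟨h', h''⟩
      have : (⟨e.1, h'⟩ : E p) = e := rfl
      rw [this, h] at h''
      exact Bool.false_ne_true h''
    · rw [decide_eq_true_eq]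
      exact ⟨e.2, h⟩

/-- Functions constant along a relation. -/
lemma card_const {X : Type} [Finite X] (r : X → X → Prop) :
    Nat.card {c : X → Bool // ∀ x y, r x y → c x = c y} = 2 ^ Nat.card (Quot r) := by
  classical
  have e : {c : X → Bool // ∀ x y, r x y → c x = c y} ≃ (Quot r → Bool) :=
    { toFun := fun c => Quot.lift c.1 c.2
      invFun := fun f => ⟨fun x => f (Quot.mk r x), fun x y h => congrArg f (Quot.sound h)⟩
      left_inv := fun c => rfl
      right_inv := by
        intro f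
        funext q
        induction q using Quot.ind
        rfl }
  have : Finite (Quot r) := Quot.finite _
  rw [Nat.card_congr e, Nat.card_fun]
  simp

/-! ### The formula over subgroups -/

/-- The elements `(σ, -1)` of `2`-power order. -/
def O (p : ℕ) : Set (Γ p) := {g | g.2 = -1 ∧ ∃ k : ℕ, g ^ (2 ^ k) = 1}

/-- The subgroups of `S_p × {1, -1}` which are generated by a nonempty set of elements `(σ, -1)`
of `2`-power order. -/
def IsOdd {p : ℕ} (H : Subgroup (Γ p)) : Prop :=
  ((H : Set (Γ p)) ∩ O p).Nonempty ∧ Subgroup.closure ((H : Set (Γ p)) ∩ O p) = H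

/-- The number of orbits of a subgroup on the ordered pairs of distinct points. -/
noncomputable def orb {p : ℕ} (H : Subgroup (Γ p)) : ℕ :=
  Nat.card (MulAction.orbitRel.Quotient H (E p))

open Classical in
noncomputable instance (p : ℕ) : Fintype (Subgroup (Γ p)) := Fintype.ofFinite _

open Classical in
/-- The coefficients: `coef H = 1 - ∑ coef K`, the sum over all `K < H` with `IsOdd K`. -/
noncomputable def coef {p : ℕ} : Subgroup (Γ p) → ℤ :=
  (wellFounded_lt (α := Subgroup (Γ p))).fix
    (fun H rec => 1 - ∑ K : {K : Subgroup (Γ p) // K < H ∧ IsOdd K}, rec K.1 K.2.1)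

open Classical in
lemma coef_eq {p : ℕ} (H : Subgroup (Γ p)) :
    coef H = 1 - ∑ K ∈ univ.filter (fun K : Subgroup (Γ p) => K < H ∧ IsOdd K), coef K := by
  unfold coef
  rw [WellFounded.fix_eq]
  congr 1
  rw [← Finset.sum_subtype_eq_sum_filter, Finset.subtype_univ]

open Classical in
lemma sum_coef {p : ℕ} (H : Subgroup (Γ p)) (hH : IsOdd H) :
    ∑ K ∈ univ.filter (fun K : Subgroup (Γ p) => K ≤ H ∧ IsOdd K), coef K = 1 := by
  have h1 : univ.filter (fun K : Subgroup (Γ p) => K ≤ H ∧ IsOdd K) =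
      insert H (univ.filter (fun K : Subgroup (Γ p) => K < H ∧ IsOdd K)) := by
    ext K
    simp only [mem_filter, mem_univ, true_and, mem_insert]
    constructor
    · rintro ⟨h1, h2⟩
      rcases eq_or_lt_of_le h1 with h | h
      · exact Or.inl h
      · exact Or.inr ⟨h, h2⟩
    · rintro (rfl | ⟨h1, h2⟩)
      · exact ⟨le_rfl, hH⟩
      · exact ⟨h1.le, h2⟩
  rw [h1, Finset.sum_insert (by simp)]
  have := coef_eq H
  linarith

lemma exists_O {p : ℕ} (H : Subgroup (Γ p)) (σ : Equiv.Perm (Fin p)) (h : (σ, -1) ∈ H) :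
    ((H : Set (Γ p)) ∩ O p).Nonempty := by
  set g : Γ p := (σ, -1) with hg
  have hn : orderOf g ≠ 0 := (orderOf_pos g).ne'
  obtain ⟨k, m, hm, hkm⟩ := Nat.exists_eq_two_pow_mul_odd hn
  refine ⟨g ^ m, H.pow_mem h m, ?_, k, ?_⟩
  · rw [Prod.pow_snd]
    exact hm.neg_one_pow
  · rw [← pow_mul, mul_comm m, ← hkm, pow_orderOf_eq_one]

open Classical in
lemma sum_St {p : ℕ} (c : E p → Bool) :
    ∑ K ∈ univ.filter (fun K : Subgroup (Γ p) => K ≤ St c ∧ IsOdd K), coef K =
      if (∃ σ : Equiv.Perm (Fin p), (σ, -1) ∈ St c) then 1 else 0 := by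
  split_ifs with h
  · obtain ⟨σ, hσ⟩ := h
    set H : Subgroup (Γ p) := Subgroup.closure ((St c : Set (Γ p)) ∩ O p) with hH
    have h1 : H ≤ St c := by
      rw [hH, Subgroup.closure_le]
      exact Set.inter_subset_left
    have h2 : (St c : Set (Γ p)) ∩ O p ⊆ (H : Set (Γ p)) ∩ O p := fun x hx =>
      ⟨Subgroup.subset_closure hx, hx.2⟩
    have hodd : IsOdd H := by
      refine ⟨(exists_O (St c) σ hσ).mono h2, le_antisymm ?_ ?_⟩
      · rw [Subgroup.closure_le]
        exact Set.inter_subset_left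
      · conv_lhs => rw [hH]
        exact Subgroup.closure_mono h2
    rw [← sum_coef H hodd]
    refine Finset.sum_congr ?_ (fun _ _ => rfl)
    ext K
    simp only [mem_filter, mem_univ, true_and]
    constructor
    · rintro ⟨h3, h4⟩
      refine ⟨?_, h4⟩
      rw [← h4.2, hH]
      exact Subgroup.closure_mono (Set.inter_subset_inter_left _ h3)
    · rintro ⟨h3, h4⟩
      exact ⟨h3.trans h1, h4⟩
  · rw [Finset.filter_eq_empty_iff.2, Finset.sum_empty]
    rintro K - ⟨h1, h2⟩
    obtain ⟨g, hgK, hgO⟩ := h2.1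
    apply h
    refine ⟨g.1, ?_⟩
    have : g = (g.1, -1) := Prod.ext rfl hgO.1
    rw [← this]
    exact h1 hgK

lemma card_fixed {p : ℕ} (H : Subgroup (Γ p)) :
    Nat.card {c : E p → Bool // H ≤ St c} = 2 ^ orb H := by
  unfold orb
  have h := card_const (fun x y : E p => (MulAction.orbitRel H (E p)) x y)
  have h2 : Nat.card (Quot (fun x y : E p => (MulAction.orbitRel H (E p)) x y)) =
    Nat.card (MulAction.orbitRel.Quotient H (E p)) := rfl
  rw [← h2, ← h]
  refine Nat.card_congr (Equiv.subtypeEquivRight ?_)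
  intro c
  constructor
  · intro hc x y hxy
    rw [MulAction.orbitRel_apply, MulAction.mem_orbit_iff] at hxy
    obtain ⟨g, rfl⟩ := hxy
    exact hc g.2 y
  · intro hc g hg e
    apply hc
    rw [MulAction.orbitRel_apply, MulAction.mem_orbit_iff]
    exact ⟨⟨g, hg⟩, rfl⟩

open Classical in
theorem subgroup_formula (p : ℕ) :
    (s p : ℤ) = ∑ H ∈ univ.filter (fun H : Subgroup (Γ p) => IsOdd H), coef H * 2 ^ orb H := by
  have h1 : (s p : ℤ) = ∑ c : E p → Bool,
      if (∃ σ : Equiv.Perm (Fin p), (σ, -1) ∈ St c) then (1 : ℤ) else 0 := by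
    rw [s_eq, Nat.card_eq_fintype_card, Fintype.card_subtype, Finset.card_filter]
    push_cast
    rfl
  rw [h1]
  have h2 : ∀ c : E p → Bool, (if (∃ σ : Equiv.Perm (Fin p), (σ, -1) ∈ St c) then (1 : ℤ) else 0) =
      ∑ K ∈ univ.filter (fun K : Subgroup (Γ p) => IsOdd K), if K ≤ St c then coef K else 0 := by
    intro c
    rw [← sum_St, Finset.sum_filter, Finset.sum_filter]
    refine Finset.sum_congr rfl (fun K _ => ?_)
    by_cases h3 : K ≤ St c <;> by_cases h4 : IsOdd K <;> simp [h3, h4]
  simp_rw [h2]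
  rw [Finset.sum_comm]
  refine Finset.sum_congr rfl (fun H _ => ?_)
  rw [← Finset.sum_filter, Finset.sum_const, nsmul_eq_mul, mul_comm]
  congr 1
  have h3 := card_fixed H
  rw [Nat.card_eq_fintype_card, Fintype.card_subtype] at h3
  exact_mod_cast h3

/-! ### The formula over tuples of permutations -/

/-- The number of classes of the ordered pairs of distinct points under the equivalence relation
generated by `(u, v) ~ (σ i v, σ i u)` for all `i`. -/
noncomputable def cls {p k : ℕ} (σ : Fin k → Equiv.Perm (Fin p)) : ℕ :=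
  Nat.card (Quot (fun e e' : E p => ∃ i, e' = ((σ i, -1) : Γ p) • e))

/-- The permutations which map a digraph to its converse. -/
def Anti {p : ℕ} (c : E p → Bool) : Type := {σ : Equiv.Perm (Fin p) // (σ, -1) ∈ St c}

instance {p : ℕ} (c : E p → Bool) : Finite (Anti c) := by unfold Anti; infer_instance

lemma card_anti {p : ℕ} (c : E p → Bool) :
    Nat.card (Anti c) = 0 ∨ Nat.card (Anti c) ∈ (p.factorial).divisors := by
  classical
  by_cases h : Nonempty (Anti c)
  · right
    obtain ⟨g0⟩ := h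
    have e : Anti c ≃ (St c).comap (MonoidHom.inl (Equiv.Perm (Fin p)) ℤˣ) :=
      { toFun := fun g => ⟨g0.1⁻¹ * g.1, by
          rw [Subgroup.mem_comap]
          have h1 := (St c).mul_mem ((St c).inv_mem g0.2) g.2
          simpa using h1⟩
        invFun := fun h => ⟨g0.1 * h.1, by
          have h1 := h.2
          rw [Subgroup.mem_comap] at h1
          have h2 := (St c).mul_mem g0.2 h1
          simpa using h2⟩
        left_inv := by intro g; apply Subtype.ext; simp
        right_inv := by intro g; apply Subtype.ext; simp }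
    rw [Nat.card_congr e, Nat.mem_divisors]
    refine ⟨?_, Nat.factorial_ne_zero p⟩
    have := Subgroup.card_subgroup_dvd_card ((St c).comap (MonoidHom.inl (Equiv.Perm (Fin p)) ℤˣ))
    rwa [Nat.card_eq_fintype_card (α := Equiv.Perm (Fin p)), Fintype.card_perm,
      Fintype.card_fin] at this
  · left
    rw [Nat.card_eq_zero]
    left
    exact not_nonempty_iff.mp h

lemma card_tuple {p k : ℕ} (σ : Fin k → Equiv.Perm (Fin p)) :
    Nat.card {c : E p → Bool // ∀ i, (σ i, -1) ∈ St c} = 2 ^ cls σ := by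
  unfold cls
  rw [← card_const (fun e e' : E p => ∃ i, e' = ((σ i, -1) : Γ p) • e)]
  refine Nat.card_congr (Equiv.subtypeEquivRight ?_)
  intro c
  constructor
  · rintro hc x _ ⟨i, rfl⟩
    exact (hc i x).symm
  · intro hc i e
    exact (hc e _ ⟨i, rfl⟩).symm

lemma sum_pow (p k : ℕ) :
    ∑ c : E p → Bool, (Nat.card (Anti c)) ^ k = ∑ σ : Fin k → Equiv.Perm (Fin p), 2 ^ cls σ := by
  classical
  have h1 : ∀ c : E p → Bool, (Nat.card (Anti c)) ^ k =
      ∑ σ : Fin k → Equiv.Perm (Fin p), if (∀ i, (σ i, -1) ∈ St c) then 1 else 0 := by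
    intro c
    have e : (Fin k → Anti c) ≃ {σ : Fin k → Equiv.Perm (Fin p) // ∀ i, (σ i, -1) ∈ St c} :=
      { toFun := fun f => ⟨fun i => (f i).1, fun i => (f i).2⟩
        invFun := fun σ i => ⟨σ.1 i, σ.2 i⟩
        left_inv := fun f => rfl
        right_inv := fun f => rfl }
    have h2 : Nat.card (Fin k → Anti c) = (Nat.card (Anti c)) ^ k := by
      rw [Nat.card_fun]; simp
    rw [← h2, Nat.card_congr e, Nat.card_eq_fintype_card, Fintype.card_subtype, Finset.card_filter]
  simp_rw [h1]
  rw [Finset.sum_comm]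
  refine Finset.sum_congr rfl (fun σ _ => ?_)
  rw [← card_tuple σ, Nat.card_eq_fintype_card, Fintype.card_subtype, Finset.card_filter]

theorem tuple_formula (p : ℕ) :
    (s p : ℚ) = ∑ A ∈ (p.factorial).divisors.powerset.erase ∅,
      ((-1) ^ (A.card + 1) / ∏ d ∈ A, (d : ℚ)) *
        ∑ σ : Fin A.card → Equiv.Perm (Fin p), (2 : ℚ) ^ cls σ := by
  classical
  have h0 : ∀ c : E p → Bool, (if (∃ σ : Equiv.Perm (Fin p), (σ, -1) ∈ St c) then (1 : ℚ) else 0) =
      ∑ A ∈ (p.factorial).divisors.powerset.erase ∅,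
        ((-1) ^ (A.card + 1) / ∏ d ∈ A, (d : ℚ)) * (Nat.card (Anti c) : ℚ) ^ A.card := by
    intro c
    set N : ℚ := (Nat.card (Anti c) : ℚ) with hN
    have hprod : ∏ d ∈ (p.factorial).divisors, (1 - N / (d : ℚ)) =
        ∑ A ∈ (p.factorial).divisors.powerset, ((-1) ^ A.card / ∏ d ∈ A, (d : ℚ)) * N ^ A.card := by
      rw [Finset.prod_sub]
      apply Finset.sum_congr rfl
      intro A _
      rw [Finset.prod_const_one, Finset.prod_div_distrib, Finset.prod_const]
      ring
    have hsum : ∑ A ∈ (p.factorial).divisors.powerset.erase ∅,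
        ((-1) ^ (A.card + 1) / ∏ d ∈ A, (d : ℚ)) * N ^ A.card =
        1 - ∏ d ∈ (p.factorial).divisors, (1 - N / (d : ℚ)) := by
      rw [hprod, ← Finset.add_sum_erase _ _ (Finset.empty_mem_powerset _)]
      simp only [Finset.card_empty, pow_zero, Finset.prod_empty, div_one, mul_one]
      rw [sub_add_eq_sub_sub, sub_self, zero_sub, ← Finset.sum_neg_distrib]
      apply Finset.sum_congr rfl
      intro A _
      rw [pow_succ]
      ring
    rw [hsum]
    rcases card_anti c with hz | hd
    · have hne : ¬ ∃ σ : Equiv.Perm (Fin p), (σ, -1) ∈ St c := by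
        rintro ⟨g, hg⟩
        rw [Nat.card_eq_zero] at hz
        rcases hz with hz | hz
        · exact hz.false ⟨g, hg⟩
        · exact not_finite (Anti c)
      have hN0 : N = 0 := by rw [hN, hz]; simp
      rw [if_neg hne, hN0]
      simp
    · have hpos : Nat.card (Anti c) ≠ 0 := (Nat.pos_of_mem_divisors hd).ne'
      have hex : ∃ σ : Equiv.Perm (Fin p), (σ, -1) ∈ St c := by
        have : Nonempty (Anti c) := by
          by_contra hne
          apply hpos
          rw [Nat.card_eq_zero]
          left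
          exact not_nonempty_iff.mp hne
        obtain ⟨g⟩ := this
        exact ⟨g.1, g.2⟩
      rw [if_pos hex, Finset.prod_eq_zero hd]
      · simp
      · rw [hN, div_self (by exact_mod_cast hpos), sub_self]
  have h1 : (s p : ℚ) =
      ∑ c : E p → Bool, (if (∃ σ : Equiv.Perm (Fin p), (σ, -1) ∈ St c) then (1 : ℚ) else 0) := by
    rw [s_eq, Nat.card_eq_fintype_card, Fintype.card_subtype, Finset.card_filter]
    push_cast
    rfl
  rw [h1]
  simp_rw [h0]
  rw [Finset.sum_comm]
  apply Finset.sum_congr rfl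
  intro A _
  rw [← Finset.mul_sum]
  congr 1
  have := sum_pow p A.card
  exact_mod_cast this

open Classical in
/-- **MP_b5e4d4, Q1.** Two formulas for the number `s(p)` of labeled self-converse digraphs with `p`
points: as a sum over subgroups of `S_p × {1, -1}`, with the coefficients given by a recursion, and
as a sum over tuples of permutations. -/
theorem result (p : ℕ) :
    ((s p : ℤ) = ∑ H ∈ univ.filter (fun H : Subgroup (Γ p) => IsOdd H), coef H * 2 ^ orb H) ∧
    (∀ H : Subgroup (Γ p), IsOdd H →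
      coef H = 1 - ∑ K ∈ univ.filter (fun K : Subgroup (Γ p) => K < H ∧ IsOdd K), coef K) ∧
    (s p : ℚ) = ∑ A ∈ (p.factorial).divisors.powerset.erase ∅,
      ((-1) ^ (A.card + 1) / ∏ d ∈ A, (d : ℚ)) *
        ∑ σ : Fin A.card → Equiv.Perm (Fin p), (2 : ℚ) ^ cls σ :=
  ⟨subgroup_formula p, fun H _ => coef_eq H, tuple_formula p⟩

end Pool.Agent.Results.MP_b5e4d4_co.SelfConverse
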